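import Pool.Agent.H217_LR.Final

/-!
# The log-rank conjecture for XOR functions closed under a Boolean operation
-/

set_option autoImplicit false

namespace Pool.Agent.Results.MP_e5d384_lc.ClosedXorFunctions

/-- the Boolean operation `φ` is constant or depends on one of its variables only -/
def EssentiallyUnary {k : ℕ} (φ : (Fin k → ZMod 2) → ZMod 2) : Prop :=
  (∃ c, ∀ x, φ x = c) ∨ ∃ (j : Fin k) (h : ZMod 2 → ZMod 2), ∀ x, φ x = h (x j)

/-- `S` is closed under `φ` applied coordinate by coordinate in the affine coordinates `A` -/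
def ClosedIn {k n : ℕ} (φ : (Fin k → ZMod 2) → ZMod 2)
    (A : (Fin n → ZMod 2) ≃ᵃ[ZMod 2] (Fin n → ZMod 2)) (S : Set (Fin n → ZMod 2)) : Prop :=
  ∀ v : Fin k → Fin n → ZMod 2, (∀ j, v j ∈ S) →
    ∀ w : Fin n → ZMod 2, (∀ i, A w i = φ (fun j => A (v j) i)) → w ∈ S

/-- **The log-rank conjecture for XOR functions closed under a Boolean operation.**
Let `φ` be a Boolean operation (of any arity) that depends on at least two of its variables and let
`f : F_2^n → {0,1}` be such that its set of ones, or its set of zeros, is closed under `φ` applied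
coordinate by coordinate in some affine coordinates of `F_2^n`. Then the XOR function
`F(x, y) = f(x + y)` has a deterministic two-party protocol with at most `4 (log₂ rank F + 1) ^ 3`
bits. -/
theorem result {k : ℕ} (φ : (Fin k → ZMod 2) → ZMod 2) (hφ : ¬ EssentiallyUnary φ)
    (n : ℕ) (A : (Fin n → ZMod 2) ≃ᵃ[ZMod 2] (Fin n → ZMod 2)) (f : (Fin n → ZMod 2) → Bool)
    (e : Bool) (hf : ClosedIn φ A {x | f x = e}) :
    ∃ (c : ℕ) (owner : List Bool → Bool) (a b : List Bool → (Fin n → ZMod 2) → Bool)
      (out : List Bool → Bool),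
      (∀ x y, out (Nat.iterate
        (fun t : List Bool => t ++ [if owner t then a t x else b t y]) c []) = f (x + y)) ∧
      (c : ℝ) ≤ 4 * (Real.logb 2 ((Matrix.of (fun x y : Fin n → ZMod 2 =>
          if f (x + y) then (1 : ℝ) else 0)).rank : ℝ) + 1) ^ 3 := by
  obtain ⟨c, ⟨owner, a, b, out, h⟩, hc⟩ := Pool.Agent.H217_LR.bound f e A
    (Pool.Agent.H217_LR.Clone.min_of_closed φ hφ {x | f (A.symm x) = e} (by
      intro v hv
      show f (A.symm _) = e
      refine hf (fun j => A.symm (v j)) hv _ fun i => ?_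
      rw [AffineEquiv.apply_symm_apply]
      congr 1
      funext j
      rw [AffineEquiv.apply_symm_apply]))
  exact ⟨c, owner, a, b, out, h, hc⟩

end Pool.Agent.Results.MP_e5d384_lc.ClosedXorFunctions
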